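import Mathlib

/-!
# A Lie power that is neither completely reducible nor uniserial for a maximal subgroup

`F = 𝔽₄`, `V = F²`, `H` = the monomial subgroup (order `18`) of `GL(V)`, `n = 5`.
-/

set_option autoImplicit false

namespace Pool.Agent.Results.MP_a1df92_al.MonomialGLTwoFour

section General

variable {F : Type} [Field F] {V : Type} [AddCommGroup V] [Module F V]

/-- The action of `GL(V)` on the tensor algebra by algebra endomorphisms. -/
noncomputable def act (g : V ≃ₗ[F] V) : TensorAlgebra F V →ₐ[F] TensorAlgebra F V :=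
  TensorAlgebra.lift F ((TensorAlgebra.ι F) ∘ₗ (g : V →ₗ[F] V))

/-- The commutator of `t` with a vector. -/
noncomputable def br (t : TensorAlgebra F V) (w : V) : TensorAlgebra F V :=
  t * TensorAlgebra.ι F w - TensorAlgebra.ι F w * t

/-- The left-normed bracket `[v, l₁, …, l_m]`. -/
noncomputable def brk (v : V) (l : List V) : TensorAlgebra F V :=
  l.foldl br (TensorAlgebra.ι F v)

variable (F V) in
/-- The Lie power `L^k V`: the span of the left-normed brackets of `k` vectors. -/
noncomputable def LP (k : ℕ) : Submodule F (TensorAlgebra F V) :=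
  Submodule.span F {t | ∃ (v : V) (l : List V), l.length + 1 = k ∧ t = brk v l}

/-- `U` is an `FH`-submodule. -/
def Stable (H : Subgroup (V ≃ₗ[F] V)) (U : Submodule F (TensorAlgebra F V)) : Prop :=
  ∀ g ∈ H, ∀ u ∈ U, act g u ∈ U

/-- `U` is an irreducible `FH`-module. -/
def Irr (H : Subgroup (V ≃ₗ[F] V)) (U : Submodule F (TensorAlgebra F V)) : Prop :=
  Stable H U ∧ U ≠ ⊥ ∧ ∀ U' ≤ U, Stable H U' → U' = ⊥ ∨ U' = U

/-- The condition `(∗_n)`. -/
def Star (H : Subgroup (V ≃ₗ[F] V)) (n : ℕ) : Prop :=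
  ∀ k, 1 ≤ k → k ≤ n - 1 → ∀ U ≤ LP F V k, Irr ⊤ U → Irr H U

/-- `W` is a direct sum of irreducible `FH`-submodules. -/
def CompletelyReducible (H : Subgroup (V ≃ₗ[F] V)) (W : Submodule F (TensorAlgebra F V)) : Prop :=
  ∃ (ι : Type) (U : ι → Submodule F (TensorAlgebra F V)),
    (∀ i, Irr H (U i)) ∧ iSupIndep U ∧ ⨆ i, U i = W

/-- The `FH`-submodules of `W` form a chain. -/
def Uniserial (H : Subgroup (V ≃ₗ[F] V)) (W : Submodule F (TensorAlgebra F V)) : Prop :=
  ∀ U₁ U₂, U₁ ≤ W → U₂ ≤ W → Stable H U₁ → Stable H U₂ → U₁ ≤ U₂ ∨ U₂ ≤ U₁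

theorem act_ι (g : V ≃ₗ[F] V) (v : V) :
    act g (TensorAlgebra.ι F v) = TensorAlgebra.ι F (g v) := by
  unfold act
  rw [TensorAlgebra.lift_ι_apply]
  rfl

theorem act_br (g : V ≃ₗ[F] V) (t : TensorAlgebra F V) (w : V) :
    act g (br t w) = br (act g t) (g w) := by
  unfold br
  rw [map_sub, map_mul, map_mul, act_ι]

theorem br_add (t t' : TensorAlgebra F V) (w : V) : br (t + t') w = br t w + br t' w := by
  unfold br; noncomm_ring

theorem br_smul (c : F) (t : TensorAlgebra F V) (w : V) : br (c • t) w = c • br t w := by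
  unfold br
  rw [smul_mul_assoc, mul_smul_comm, smul_sub]

theorem br_add' (t : TensorAlgebra F V) (w w' : V) : br t (w + w') = br t w + br t w' := by
  unfold br; rw [map_add]; noncomm_ring

theorem br_smul' (c : F) (t : TensorAlgebra F V) (w : V) : br t (c • w) = c • br t w := by
  unfold br
  rw [map_smul, smul_mul_assoc, mul_smul_comm, smul_sub]

theorem br_zero (w : V) : br (0 : TensorAlgebra F V) w = 0 := by
  unfold br; simp

theorem brk_mem (v : V) (l : List V) : brk v l ∈ LP F V (l.length + 1) :=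
  Submodule.subset_span ⟨v, l, rfl, rfl⟩

end General

/-! ### The field with four elements -/

/-- The field with four elements `0, 1, ω, ω² = ω + 1`. -/
inductive F4
  | e0 | e1 | ew | ev
  deriving DecidableEq

namespace F4

instance : Fintype F4 := ⟨{e0, e1, ew, ev}, by intro x; cases x <;> decide⟩

/-- addition -/
def add : F4 → F4 → F4
  | e0, b => b
  | a, e0 => a
  | e1, e1 => e0 | e1, ew => ev | e1, ev => ew
  | ew, e1 => ev | ew, ew => e0 | ew, ev => e1
  | ev, e1 => ew | ev, ew => e1 | ev, ev => e0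

/-- multiplication -/
def mul : F4 → F4 → F4
  | e0, _ => e0
  | _, e0 => e0
  | e1, b => b
  | a, e1 => a
  | ew, ew => ev | ew, ev => e1
  | ev, ew => e1 | ev, ev => ew

/-- inverse -/
def inv : F4 → F4
  | e0 => e0 | e1 => e1 | ew => ev | ev => ew

instance : Zero F4 := ⟨e0⟩
instance : One F4 := ⟨e1⟩
instance : Add F4 := ⟨add⟩
instance : Mul F4 := ⟨mul⟩
instance : Neg F4 := ⟨id⟩
instance : _root_.Inv F4 := ⟨inv⟩

instance : Field F4 where
  add_assoc := by decide
  zero_add := by decide
  add_zero := by decide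
  add_comm := by decide
  mul_assoc := by decide
  one_mul := by decide
  mul_one := by decide
  mul_comm := by decide
  zero_mul := by decide
  mul_zero := by decide
  left_distrib := by decide
  right_distrib := by decide
  neg_add_cancel := by decide
  mul_inv_cancel := by decide
  inv_zero := by decide
  exists_pair_ne := ⟨e0, e1, by decide⟩
  nsmul := nsmulRec
  zsmul := zsmulRec
  nnqsmul := _
  qsmul := _

end F4

theorem two4 (a : F4) : a + a = 0 := by revert a; decide

theorem neg4 (a : F4) : -a = a := by revert a; decide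

theorem cube4 (a : F4) (h : a ≠ 0) : a * a * a = 1 := by revert a; decide

/-! ### The group `GL₂(4)` and its monomial subgroup -/

/-- The natural module. -/
abbrev V4 : Type := F4 × F4

/-- The group `GL(V)`. -/
abbrev GL4 : Type := V4 ≃ₗ[F4] V4

/-- diagonal elements -/
def tor (a d : F4) (ha : a ≠ 0) (hd : d ≠ 0) : GL4 where
  toFun v := (a * v.1, d * v.2)
  invFun v := (a⁻¹ * v.1, d⁻¹ * v.2)
  map_add' u v := by ext <;> simp [mul_add]
  map_smul' c v := by ext <;> simp [mul_left_comm]
  left_inv v := by ext <;> simp [ha, hd]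
  right_inv v := by ext <;> simp [ha, hd]

/-- the swap -/
def sw : GL4 where
  toFun v := (v.2, v.1)
  invFun v := (v.2, v.1)
  map_add' u v := by ext <;> simp
  map_smul' c v := by ext <;> simp
  left_inv v := by ext <;> simp
  right_inv v := by ext <;> simp

/-- upper unipotent elements -/
def up (t : F4) : GL4 where
  toFun v := (v.1 + t * v.2, v.2)
  invFun v := (v.1 + t * v.2, v.2)
  map_add' u v := by ext <;> simp; ring
  map_smul' c v := by ext <;> simp; ring
  left_inv v := by ext <;> simp [add_assoc, two4]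
  right_inv v := by ext <;> simp [add_assoc, two4]

/-- lower unipotent elements -/
def lo (t : F4) : GL4 where
  toFun v := (v.1, v.2 + t * v.1)
  invFun v := (v.1, v.2 + t * v.1)
  map_add' u v := by ext <;> simp; ring
  map_smul' c v := by ext <;> simp; ring
  left_inv v := by ext <;> simp [add_assoc, two4]
  right_inv v := by ext <;> simp [add_assoc, two4]

/-- `g` has the matrix `(a b; c d)`. -/
def Has (g : GL4) (a b c d : F4) : Prop :=
  ∀ v : V4, g v = (a * v.1 + b * v.2, c * v.1 + d * v.2)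

theorem has_tor (a d : F4) (ha : a ≠ 0) (hd : d ≠ 0) : Has (tor a d ha hd) a 0 0 d := by
  intro v; simp [tor]

theorem has_sw : Has sw 0 1 1 0 := by
  intro v; simp [sw]

theorem has_up (t : F4) : Has (up t) 1 t 0 1 := by
  intro v; simp [up]

theorem has_lo (t : F4) : Has (lo t) 1 0 t 1 := by
  intro v; simp [lo, add_comm]

theorem exists_has (g : GL4) : ∃ a b c d, Has g a b c d := by
  refine ⟨(g (1, 0)).1, (g (0, 1)).1, (g (1, 0)).2, (g (0, 1)).2, fun v => ?_⟩
  have h1 : v = v.1 • ((1, 0) : V4) + v.2 • ((0, 1) : V4) := by ext <;> simp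
  conv_lhs => rw [h1]
  rw [map_add, map_smul, map_smul]
  ext <;> simp [mul_comm]

theorem Has.mul {g g' : GL4} {a b c d a' b' c' d' : F4} (h : Has g a b c d)
    (h' : Has g' a' b' c' d') :
    Has (g * g') (a * a' + b * c') (a * b' + b * d') (c * a' + d * c') (c * b' + d * d') := by
  intro v
  rw [LinearEquiv.mul_apply, h', h]
  ext <;> simp <;> ring

theorem Has.ext {g g' : GL4} {a b c d : F4} (h : Has g a b c d) (h' : Has g' a b c d) :
    g = g' := by
  apply LinearEquiv.ext
  intro v
  rw [h, h']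

theorem Has.congr {g : GL4} {a b c d a' b' c' d' : F4} (h : Has g a b c d) (ha : a = a')
    (hb : b = b') (hc : c = c') (hd : d = d') : Has g a' b' c' d' := by
  subst ha hb hc hd; exact h

theorem Has.det {g : GL4} {a b c d : F4} (h : Has g a b c d) : a * d + b * c ≠ 0 := by
  intro hdet
  have h1 : g (d, c) = 0 := by
    rw [h]
    ext
    · simpa using hdet
    · simp [mul_comm d c, two4]
  have h2 : g (b, a) = 0 := by
    rw [h]
    ext
    · simp [mul_comm b a, two4]
    · simp only [Prod.snd_zero]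
      rw [← hdet]; ring
  have h3 : ((d, c) : V4) = 0 := by simpa using h1
  have h4 : ((b, a) : V4) = 0 := by simpa using h2
  have h5 : a = 0 := congrArg Prod.snd h4
  have h6 : c = 0 := congrArg Prod.snd h3
  have h7 : g (1, 0) = 0 := by
    rw [h, h5, h6]; simp
  have h8 : ((1, 0) : V4) = 0 := g.map_eq_zero_iff.mp h7
  have h9 : (1 : F4) = 0 := congrArg Prod.fst h8
  exact one_ne_zero h9

/-- The monomial subgroup: the stabiliser of the union of the two coordinate axes. -/
def H : Subgroup GL4 where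
  carrier := {g | ∀ v : V4, (v.1 = 0 ∨ v.2 = 0) ↔ ((g v).1 = 0 ∨ (g v).2 = 0)}
  mul_mem' := by
    intro g h hg hh v
    rw [LinearEquiv.mul_apply]
    exact (hh v).trans (hg _)
  one_mem' := by intro v; rfl
  inv_mem' := by
    intro g hg v
    have := hg (g⁻¹ v)
    rw [← LinearEquiv.mul_apply, mul_inv_cancel] at this
    exact this.symm

theorem mem_H {g : GL4} : g ∈ H ↔ ∀ v : V4, (v.1 = 0 ∨ v.2 = 0) ↔ ((g v).1 = 0 ∨ (g v).2 = 0) :=
  Iff.rfl

theorem tor_mem (a d : F4) (ha : a ≠ 0) (hd : d ≠ 0) : tor a d ha hd ∈ H := by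
  intro v; simp [tor, ha, hd]

theorem sw_mem : sw ∈ H := by
  intro v; simp [sw, or_comm]

theorem aux_cases : ∀ a b c d : F4, a * d + b * c ≠ 0 → (a = 0 ∨ c = 0) → (b = 0 ∨ d = 0) →
    (b = 0 ∧ c = 0 ∧ a ≠ 0 ∧ d ≠ 0) ∨ (a = 0 ∧ d = 0 ∧ b ≠ 0 ∧ c ≠ 0) := by
  intro a b c d
  by_cases ha : a = 0 <;> by_cases hb : b = 0 <;> by_cases hc : c = 0 <;> by_cases hd : d = 0 <;>
    simp [ha, hb, hc, hd]

/-- An element of `H` is diagonal or antidiagonal. -/
theorem H_cases {g : GL4} (hg : g ∈ H) {a b c d : F4} (h : Has g a b c d) :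
    (b = 0 ∧ c = 0 ∧ a ≠ 0 ∧ d ≠ 0) ∨ (a = 0 ∧ d = 0 ∧ b ≠ 0 ∧ c ≠ 0) := by
  have h1 := (hg (1, 0)).mp (Or.inr rfl)
  have h2 := (hg (0, 1)).mp (Or.inl rfl)
  rw [h] at h1 h2
  have h3 := h.det
  simp only [mul_one, mul_zero, add_zero, zero_add] at h1 h2
  exact aux_cases a b c d h3 h1 h2

theorem not_mem_H {g : GL4} (hg : g ∉ H) {a b c d : F4} (h : Has g a b c d) :
    ¬ (b = 0 ∧ c = 0) ∧ ¬ (a = 0 ∧ d = 0) := by
  have h3 := h.det
  constructor
  · rintro ⟨rfl, rfl⟩
    apply hg
    have ha : a ≠ 0 := by rintro rfl; simp at h3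
    have hd : d ≠ 0 := by rintro rfl; simp at h3
    rw [h.ext (has_tor a d ha hd)]
    exact tor_mem a d ha hd
  · rintro ⟨rfl, rfl⟩
    apply hg
    have ha : b ≠ 0 := by rintro rfl; simp at h3
    have hd : c ≠ 0 := by rintro rfl; simp at h3
    have h4 : Has (sw * tor c b hd ha) 0 b c 0 :=
      (has_sw.mul (has_tor c b hd ha)).congr (by simp) (by simp) (by simp) (by simp)
    rw [h.ext h4]
    exact mul_mem sw_mem (tor_mem c b hd ha)

/-- A subgroup that contains `H` and an upper unipotent element is everything. -/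
theorem eq_top {K : Subgroup GL4} (hK : H ≤ K) {t : F4} (ht : t ≠ 0) (hup : up t ∈ K) :
    K = ⊤ := by
  have hup' : ∀ t', up t' ∈ K := by
    intro t'
    by_cases ht' : t' = 0
    · subst ht'
      have : up 0 = 1 := by
        apply LinearEquiv.ext
        intro v
        simp [up]
      rw [this]; exact one_mem K
    · have hp : t' * t⁻¹ ≠ 0 := mul_ne_zero ht' (inv_ne_zero ht)
      have hp' : (t' * t⁻¹)⁻¹ ≠ 0 := inv_ne_zero hp
      have h1 : Has (tor (t' * t⁻¹) 1 hp one_ne_zero * up t * tor (t' * t⁻¹)⁻¹ 1 hp' one_ne_zero)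
          1 t' 0 1 := by
        refine (((has_tor _ _ _ _).mul (has_up t)).mul (has_tor _ _ _ _)).congr ?_ ?_ ?_ ?_
        · simp only [mul_one, mul_zero, add_zero]
          exact mul_inv_cancel₀ hp
        · simp [ht]
        · simp
        · simp
      rw [(has_up t').ext h1]
      exact mul_mem (mul_mem (hK (tor_mem _ _ _ _)) hup) (hK (tor_mem _ _ _ _))
  have hlo' : ∀ t', lo t' ∈ K := by
    intro t'
    have h1 : Has (sw * up t' * sw) 1 0 t' 1 :=
      ((has_sw.mul (has_up t')).mul has_sw).congr (by simp) (by simp) (by simp) (by simp)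
    rw [(has_lo t').ext h1]
    exact mul_mem (mul_mem (hK sw_mem) (hup' t')) (hK sw_mem)
  have hmain : ∀ g : GL4, ∀ a b c d, Has g a b c d → a ≠ 0 → g ∈ K := by
    intro g a b c d h ha
    have hd' : d + c * a⁻¹ * b ≠ 0 := by
      have h3 := h.det
      intro h4
      apply h3
      have : a * d + b * c = a * (d + c * a⁻¹ * b) := by field_simp
      rw [this, h4, mul_zero]
    obtain ⟨δ, hδ⟩ : ∃ δ, δ = d + c * a⁻¹ * b := ⟨_, rfl⟩
    rw [← hδ] at hd'
    have h1 : Has (lo (c * a⁻¹) * up (b * δ⁻¹) * tor a δ ha hd') a b c d := by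
      refine (((has_lo _).mul (has_up _)).mul (has_tor _ _ _ _)).congr ?_ ?_ ?_ ?_
      · simp
      · simp [hd']
      · simp [mul_assoc, ha]
      · have e1 : (c * a⁻¹ * (b * δ⁻¹)) * δ = c * a⁻¹ * b := by
          rw [mul_assoc, mul_assoc b, inv_mul_cancel₀ hd', mul_one]
        have e2 := two4 (c * a⁻¹ * b)
        simp only [mul_zero, zero_add, mul_one]
        linear_combination e1 + e2 + hδ
    rw [h.ext h1]
    exact mul_mem (mul_mem (hlo' _) (hup' _)) (hK (tor_mem _ _ _ _))
  rw [eq_top_iff]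
  intro g _
  obtain ⟨a, b, c, d, h⟩ := exists_has g
  by_cases ha : a = 0
  · have hc : c ≠ 0 := by
      rintro rfl
      have := h.det
      simp [ha] at this
    have h1 : Has (sw * g) c d a b :=
      (has_sw.mul h).congr (by simp) (by simp) (by simp) (by simp)
    have h2 := hmain _ _ _ _ _ h1 hc
    have h3 : g = sw⁻¹ * (sw * g) := by group
    rw [h3]
    exact mul_mem (inv_mem (hK sw_mem)) h2
  · exact hmain g a b c d h ha

/-- One zero entry, at the lower left. -/
theorem eq_top₁ {K : Subgroup GL4} (hK : H ≤ K) {g : GL4} (hg : g ∈ K) {a b d : F4}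
    (h : Has g a b 0 d) (hb : b ≠ 0) : K = ⊤ := by
  have h3 := h.det
  have ha : a ≠ 0 := by rintro rfl; simp at h3
  have hd : d ≠ 0 := by rintro rfl; simp at h3
  have h1 : Has (g * tor a⁻¹ d⁻¹ (inv_ne_zero ha) (inv_ne_zero hd)) 1 (b * d⁻¹) 0 1 :=
    (h.mul (has_tor _ _ _ _)).congr (by simp [ha]) (by simp) (by simp) (by simp [hd])
  refine eq_top hK (t := b * d⁻¹) (mul_ne_zero hb (inv_ne_zero hd)) ?_
  rw [(has_up _).ext h1]
  exact mul_mem hg (hK (tor_mem _ _ _ _))

theorem aux_key (a b c d : F4) (_ : a ≠ 0) (hb : b ≠ 0) (hc : c ≠ 0) (_ : d ≠ 0)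
    (h : a * d + b * c ≠ 0) :
    a * a + b * (a * a * (b * c)⁻¹) * c = 0 ∧ c * b + d * (a * a * (b * c)⁻¹) * d ≠ 0 := by
  have hbc : b * c ≠ 0 := mul_ne_zero hb hc
  constructor
  · have h1 : b * (a * a * (b * c)⁻¹) * c = a * a := by field_simp
    rw [h1, two4]
  · intro h2
    apply h
    have h3 : (c * b + d * (a * a * (b * c)⁻¹) * d) * (b * c) = (b * c) * (b * c) + (a * d) * (a * d) := by
      field_simp
    rw [h2, zero_mul] at h3
    have h4 : (a * d + b * c) * (a * d + b * c) = 0 := by
      have e1 := two4 (a * d * (b * c))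
      linear_combination -h3 + e1
    simpa using h4

theorem H_coatom : IsCoatom H := by
  constructor
  · intro htop
    have h1 : up 1 ∈ H := by rw [htop]; trivial
    have := (h1 (0, 1)).mp (Or.inl rfl)
    simp [up] at this
  · intro K hK
    obtain ⟨hle, g, hg, hgH⟩ := Set.ssubset_iff_exists.mp hK
    obtain ⟨a, b, c, d, h⟩ := exists_has g
    obtain ⟨h1, h2⟩ := not_mem_H hgH h
    have hdet := h.det
    have hswK : sw ∈ K := hle sw_mem
    -- the case `c = 0`
    by_cases hc : c = 0
    · subst hc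
      exact eq_top₁ hle hg h (fun hb => h1 ⟨hb, rfl⟩)
    by_cases hb : b = 0
    · subst hb
      have h3 : Has (sw * g * sw) d c 0 a :=
        ((has_sw.mul h).mul has_sw).congr (by simp) (by simp) (by simp) (by simp)
      exact eq_top₁ hle (mul_mem (mul_mem hswK hg) hswK) h3 hc
    by_cases ha : a = 0
    · subst ha
      have h3 : Has (sw * g) c d 0 b :=
        (has_sw.mul h).congr (by simp) (by simp) (by simp) (by simp)
      exact eq_top₁ hle (mul_mem hswK hg) h3 (fun hd => h2 ⟨rfl, hd⟩)
    by_cases hd : d = 0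
    · subst hd
      have h3 : Has (g * sw) b a 0 c :=
        (h.mul has_sw).congr (by simp) (by simp) (by simp) (by simp)
      exact eq_top₁ hle (mul_mem hg hswK) h3 ha
    · have hq : a * a * (b * c)⁻¹ ≠ 0 :=
        mul_ne_zero (mul_ne_zero ha ha) (inv_ne_zero (mul_ne_zero hb hc))
      have h3 := has_sw.mul ((h.mul (has_tor 1 (a * a * (b * c)⁻¹) one_ne_zero hq)).mul h)
      obtain ⟨k1, k2⟩ := aux_key a b c d ha hb hc hd hdet
      have h4 : Has (sw * (g * tor 1 (a * a * (b * c)⁻¹) one_ne_zero hq * g))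
          (c * a + d * (a * a * (b * c)⁻¹) * c) (c * b + d * (a * a * (b * c)⁻¹) * d) 0
          (a * b + b * (a * a * (b * c)⁻¹) * d) :=
        h3.congr (by simp) (by simp) (by simpa using k1) (by simp)
      exact eq_top₁ hle (mul_mem hswK (mul_mem (mul_mem hg (hle (tor_mem _ _ _ _))) hg)) h4 k2

/-! ### The tensor algebra -/

/-- The tensor algebra of `V`. -/
abbrev TT : Type := TensorAlgebra F4 V4

/-- The first basis vector. -/
def x : V4 := (1, 0)

/-- The second basis vector. -/
def y : V4 := (0, 1)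

/-- `[x, y]` -/
noncomputable def e : TT := br (TensorAlgebra.ι F4 x) y

theorem vec (v : V4) : v = v.1 • x + v.2 • y := by ext <;> simp [x, y]

theorem ttt (t : TT) : t + t = 0 := by
  have : t + t = ((1 : F4) + 1) • t := by rw [add_smul, one_smul]
  rw [this, two4, zero_smul]

theorem tneg (t : TT) : -t = t := by
  have := ttt t
  exact neg_eq_of_add_eq_zero_left this

/-- expansion of a bracket in the second argument -/
theorem br_vec (t : TT) (v : V4) : br t v = v.1 • br t x + v.2 • br t y := by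
  conv_lhs => rw [vec v]
  rw [br_add', br_smul', br_smul']

theorem Has.x {g : GL4} {a b c d : F4} (h : Has g a b c d) : g x = (a, c) := by
  rw [h]; simp [MonomialGLTwoFour.x]

theorem Has.y {g : GL4} {a b c d : F4} (h : Has g a b c d) : g y = (b, d) := by
  rw [h]; simp [MonomialGLTwoFour.y]

theorem act_e {g : GL4} {a b c d : F4} (h : Has g a b c d) : act g e = (a * d + b * c) • e := by
  unfold e
  rw [act_br, act_ι, h.x, h.y]
  have h1 : ((a, c) : V4) = a • x + c • y := by ext <;> simp [x, y]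
  have h2 : ((b, d) : V4) = b • x + d • y := by ext <;> simp [x, y]
  unfold br
  rw [h1, h2, map_add, map_add, map_smul, map_smul, map_smul, map_smul]
  generalize TensorAlgebra.ι F4 x = X
  generalize TensorAlgebra.ι F4 y = Y
  have h3 : a * d + b * c = a * d - b * c := by rw [sub_eq_add_neg, neg4]
  rw [h3]
  simp only [add_mul, mul_add, smul_mul_assoc, mul_smul_comm]
  module

/-- `[e, u, v, w]` -/
noncomputable def tri (u v w : V4) : TT := br (br (br e u) v) w

theorem act_tri {g : GL4} {a b c d : F4} (h : Has g a b c d) (u v w : V4) :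
    act g (tri u v w) = (a * d + b * c) • tri (g u) (g v) (g w) := by
  unfold tri
  rw [act_br, act_br, act_br, act_e h, br_smul, br_smul, br_smul]

/-- `[e, x, y] = [e, y, x]` -/
theorem jac : br (br e x) y = br (br e y) x := by
  have h : br (br e x) y - br (br e y) x = 0 := by
    unfold e br
    noncomm_ring
  exact sub_eq_zero.mp h

/-- `[e, w, w]` -/
theorem br_sq (w : V4) : br (br e w) w = (w.1 * w.1) • br (br e x) x + (w.2 * w.2) • br (br e y) y := by
  rw [br_vec e w, br_add, br_smul, br_smul, br_vec _ w, br_vec (br e y) w, jac]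
  have h := ttt ((w.1 * w.2) • br (br e y) x)
  have h2 : w.1 • (w.1 • br (br e x) x + w.2 • br (br e y) x) +
      w.2 • (w.1 • br (br e y) x + w.2 • br (br e y) y) =
      (w.1 * w.1) • br (br e x) x + (w.2 * w.2) • br (br e y) y +
      ((w.1 * w.2) • br (br e y) x + (w.1 * w.2) • br (br e y) x) := by
    module
  rw [h2, h, add_zero]

/-- `b₁ = [e,x,x,x]`. -/
noncomputable def b1 : TT := tri x x x
/-- `b₄ = [e,y,y,y]`. -/
noncomputable def b4 : TT := tri y y y
/-- the symmetrisation -/
noncomputable def sy (u v : V4) : TT := tri v u u + tri u v u + tri u u v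

theorem tri_vec (u v w : V4) : tri u v w =
    (u.1 * v.1 * w.1) • tri x x x + (u.1 * v.1 * w.2) • tri x x y +
    (u.1 * v.2 * w.1) • tri x y x + (u.1 * v.2 * w.2) • tri x y y +
    (u.2 * v.1 * w.1) • tri y x x + (u.2 * v.1 * w.2) • tri y x y +
    (u.2 * v.2 * w.1) • tri y y x + (u.2 * v.2 * w.2) • tri y y y := by
  unfold tri
  rw [br_vec e u, br_add, br_add, br_smul, br_smul, br_smul, br_smul, br_vec (br e x) v,
    br_vec (br e y) v, br_add, br_add, br_smul, br_smul, br_smul, br_smul,
    br_vec (br (br e x) x) w, br_vec (br (br e x) y) w, br_vec (br (br e y) x) w,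
    br_vec (br (br e y) y) w]
  module

/-- `[e,w,w,w]` -/
theorem tri_cube (w : V4) : tri w w w =
    (w.1 * w.1 * w.1) • b1 + (w.1 * w.1 * w.2) • sy x y + (w.1 * w.2 * w.2) • sy y x +
      (w.2 * w.2 * w.2) • b4 := by
  rw [tri_vec]
  unfold b1 b4 sy
  module

theorem sy_smul (r s : F4) (u v : V4) : sy (r • u) (s • v) = (r * r * s) • sy u v := by
  unfold sy tri
  simp only [br_smul', br_smul]
  module

/-- The twisted Steinberg module. -/
noncomputable def W : Submodule F4 TT := Submodule.span F4 (Set.range fun w => tri w w w)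

theorem tri_mem_W (w : V4) : tri w w w ∈ W := Submodule.subset_span ⟨w, rfl⟩

theorem tri_brk (u v w : V4) : tri u v w = brk x [y, u, v, w] := rfl

theorem tri_mem_LP (u v w : V4) : tri u v w ∈ LP F4 V4 5 :=
  Submodule.subset_span ⟨x, [y, u, v, w], rfl, tri_brk u v w⟩

theorem W_le : W ≤ LP F4 V4 5 := by
  unfold W
  rw [Submodule.span_le]
  rintro _ ⟨w, rfl⟩
  exact tri_mem_LP w w w

theorem W_stable (K : Subgroup GL4) : Stable K W := by
  intro g _ u hu
  obtain ⟨a, b, c, d, h⟩ := exists_has g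
  have h1 : W ≤ W.comap (act g).toLinearMap := by
    unfold W
    rw [Submodule.span_le]
    rintro _ ⟨w, rfl⟩
    change act g (tri w w w) ∈ W
    rw [act_tri h]
    exact W.smul_mem _ (tri_mem_W _)
  exact h1 hu

/-! ### Non-vanishing -/

/-- The matrices that detect a word. -/
def mat (w : ℕ → Bool) : V4 →ₗ[F4] Matrix (Fin 6) (Fin 6) F4 where
  toFun v := Matrix.of fun i j => if i.val + 1 = j.val then (if w i.val then v.1 else v.2) else 0
  map_add' u v := by
    ext i j
    simp only [Matrix.add_apply, Matrix.of_apply]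
    split_ifs <;> simp
  map_smul' c v := by
    ext i j
    simp only [Matrix.smul_apply, Matrix.of_apply, RingHom.id_apply]
    split_ifs <;> simp

/-- The coefficient functionals. -/
noncomputable def Φ (w : ℕ → Bool) : TT →ₐ[F4] Matrix (Fin 6) (Fin 6) F4 :=
  TensorAlgebra.lift F4 (mat w)

theorem Φ_br (w : ℕ → Bool) (t : TT) (v : V4) : Φ w (br t v) = Φ w t * mat w v - mat w v * Φ w t := by
  unfold br Φ
  rw [map_sub, map_mul, map_mul, TensorAlgebra.lift_ι_apply]

theorem Φ_tri (w : ℕ → Bool) (u v r : V4) : Φ w (tri u v r) =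
    (((mat w x * mat w y - mat w y * mat w x) * mat w u - mat w u *
      (mat w x * mat w y - mat w y * mat w x)) * mat w v - mat w v *
      ((mat w x * mat w y - mat w y * mat w x) * mat w u - mat w u *
      (mat w x * mat w y - mat w y * mat w x))) * mat w r - mat w r *
      (((mat w x * mat w y - mat w y * mat w x) * mat w u - mat w u *
      (mat w x * mat w y - mat w y * mat w x)) * mat w v - mat w v *
      ((mat w x * mat w y - mat w y * mat w x) * mat w u - mat w u *
      (mat w x * mat w y - mat w y * mat w x))) := by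
  unfold tri e
  rw [Φ_br, Φ_br, Φ_br, Φ_br]
  have : Φ w (TensorAlgebra.ι F4 x) = mat w x := by unfold Φ; rw [TensorAlgebra.lift_ι_apply]
  rw [this]

/-- The word `y x x x x`. -/
def w1 : ℕ → Bool := fun i => i != 0
/-- The word `y y x x x`. -/
def w3 : ℕ → Bool := fun i => (i != 0) && (i != 1)
/-- The word `x y y y y`. -/
def w4 : ℕ → Bool := fun i => i == 0

theorem f1_b1 : (Φ w1 b1) 0 5 = 1 := by unfold b1; rw [Φ_tri]; decide +kernel
theorem f1_b4 : (Φ w1 b4) 0 5 = 0 := by unfold b4; rw [Φ_tri]; decide +kernel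
theorem f1_c1 : (Φ w1 (sy x y)) 0 5 = 0 := by
  unfold sy; rw [map_add, map_add, Φ_tri, Φ_tri, Φ_tri]; decide +kernel
theorem f1_c2 : (Φ w1 (sy y x)) 0 5 = 0 := by
  unfold sy; rw [map_add, map_add, Φ_tri, Φ_tri, Φ_tri]; decide +kernel
theorem f3_b1 : (Φ w3 b1) 0 5 = 0 := by unfold b1; rw [Φ_tri]; decide +kernel
theorem f3_b4 : (Φ w3 b4) 0 5 = 0 := by unfold b4; rw [Φ_tri]; decide +kernel
theorem f3_c1 : (Φ w3 (sy x y)) 0 5 = 1 := by
  unfold sy; rw [map_add, map_add, Φ_tri, Φ_tri, Φ_tri]; decide +kernel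
theorem f4_b4 : (Φ w4 b4) 0 5 = 1 := by unfold b4; rw [Φ_tri]; decide +kernel

theorem b4_ne : b4 ≠ 0 := by
  intro h
  have := f4_b4
  rw [h, map_zero] at this
  exact absurd this (by decide)

/-! ### Upper bounds for the Lie powers -/

theorem LP_one : LP F4 V4 1 ≤ Submodule.span F4 {TensorAlgebra.ι F4 x, TensorAlgebra.ι F4 y} := by
  unfold LP
  rw [Submodule.span_le]
  rintro t ⟨v, l, hl, rfl⟩
  have hl' : l = [] := by
    apply List.eq_nil_of_length_eq_zero
    omega
  subst hl'
  change TensorAlgebra.ι F4 v ∈ _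
  rw [vec v, map_add, map_smul, map_smul]
  exact add_mem (Submodule.smul_mem _ _ (Submodule.subset_span (by simp)))
    (Submodule.smul_mem _ _ (Submodule.subset_span (by simp)))

/-- The linear map `t ↦ [t, v]`. -/
noncomputable def brL (v : V4) : TT →ₗ[F4] TT where
  toFun t := br t v
  map_add' t t' := br_add t t' v
  map_smul' c t := br_smul c t v

theorem LP_succ {k : ℕ} (hk : 1 ≤ k) {S : Set TT} (h : LP F4 V4 k ≤ Submodule.span F4 S)
    {M : Submodule F4 TT} (hM : ∀ s ∈ S, br s x ∈ M ∧ br s y ∈ M) : LP F4 V4 (k + 1) ≤ M := by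
  rw [LP, Submodule.span_le]
  rintro t ⟨v, l, hl, rfl⟩
  rcases List.eq_nil_or_concat l with h0 | ⟨l', w, h0⟩
  · subst h0
    simp at hl
    omega
  · rw [List.concat_eq_append] at h0
    subst h0
    have h1 : (brk v (l' ++ [w]) : TT) = br (brk v l') w := by
      unfold brk
      rw [List.foldl_append]
      rfl
    have h2 : brk v l' ∈ LP F4 V4 k := by
      refine Submodule.subset_span ⟨v, l', ?_, rfl⟩
      simp at hl
      exact hl
    have h3 : Submodule.span F4 S ≤ M.comap (brL x) := by
      rw [Submodule.span_le]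
      intro s hs
      exact (hM s hs).1
    have h4 : Submodule.span F4 S ≤ M.comap (brL y) := by
      rw [Submodule.span_le]
      intro s hs
      exact (hM s hs).2
    rw [SetLike.mem_coe, h1, br_vec]
    exact add_mem (M.smul_mem _ (h3 (h h2))) (M.smul_mem _ (h4 (h h2)))

theorem LP_two : LP F4 V4 2 ≤ Submodule.span F4 {e} := by
  refine LP_succ le_rfl LP_one ?_
  have he : e ∈ Submodule.span F4 {e} := Submodule.mem_span_singleton_self e
  have h1 : br (TensorAlgebra.ι F4 x) x = 0 := by unfold br; simp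
  have h2 : br (TensorAlgebra.ι F4 y) y = 0 := by unfold br; simp
  have h3 : br (TensorAlgebra.ι F4 y) x = -e := by unfold e br; abel
  rintro s (rfl | rfl)
  · exact ⟨by rw [h1]; exact zero_mem _, he⟩
  · exact ⟨by rw [h3]; exact neg_mem he, by rw [h2]; exact zero_mem _⟩

theorem LP_three : LP F4 V4 3 ≤ Submodule.span F4 {br e x, br e y} := by
  refine LP_succ (by norm_num) LP_two ?_
  rintro s rfl
  exact ⟨Submodule.subset_span (by simp), Submodule.subset_span (by simp)⟩

theorem LP_four : LP F4 V4 4 ≤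
    Submodule.span F4 {br (br e x) x, br (br e y) x, br (br e y) y} := by
  refine LP_succ (by norm_num) LP_three ?_
  rintro s (rfl | rfl)
  · exact ⟨Submodule.subset_span (by simp), Submodule.subset_span (by simp [jac])⟩
  · exact ⟨Submodule.subset_span (by simp), Submodule.subset_span (by simp)⟩

/-! ### Submodules of two-dimensional pieces -/

/-- The distinguished element of the torus. -/
def τ : GL4 := tor F4.ew 1 (by decide) (by decide)

theorem τ_mem : τ ∈ H := tor_mem _ _ _ _

theorem two_dim {p q : TT} {lam mu : F4} (hlm : lam ≠ mu) (hp : act τ p = lam • p)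
    (hq : act τ q = mu • q) (hs1 : act sw p = q) (hs2 : act sw q = p)
    {U : Submodule F4 TT} (hU : U ≤ Submodule.span F4 {p, q}) (hst : Stable H U) (h0 : U ≠ ⊥) :
    U = Submodule.span F4 {p, q} := by
  obtain ⟨u, hu, hu0⟩ := Submodule.exists_mem_ne_zero_of_ne_bot h0
  obtain ⟨α, β, hαβ⟩ := Submodule.mem_span_pair.mp (hU hu)
  have hboth : p ∈ U ∧ q ∈ U := by
    by_cases hα : α = 0
    · subst hα
      have hβ : β ≠ 0 := by
        rintro rfl
        apply hu0
        rw [← hαβ]; simp
      have hq' : q ∈ U := by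
        have h1 : q = β⁻¹ • u := by
          rw [← hαβ, zero_smul, zero_add, smul_smul, inv_mul_cancel₀ hβ, one_smul]
        rw [h1]
        exact U.smul_mem _ hu
      refine ⟨?_, hq'⟩
      rw [← hs2]
      exact hst _ sw_mem _ hq'
    · have h1 : act τ u - mu • u = (α * (lam - mu)) • p := by
        rw [← hαβ, map_add, map_smul, map_smul, hp, hq]
        module
      have h2 : act τ u - mu • u ∈ U := sub_mem (hst _ τ_mem _ hu) (U.smul_mem _ hu)
      rw [h1] at h2
      have hne : α * (lam - mu) ≠ 0 := mul_ne_zero hα (sub_ne_zero.mpr hlm)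
      have hp' : p ∈ U := (U.smul_mem_iff hne).mp h2
      refine ⟨hp', ?_⟩
      rw [← hs1]
      exact hst _ sw_mem _ hp'
  refine le_antisymm hU ?_
  rw [Submodule.span_le]
  rintro t (rfl | rfl)
  · exact hboth.1
  · exact hboth.2

theorem irr_two {p q : TT} {lam mu : F4} (hlm : lam ≠ mu) (hp : act τ p = lam • p)
    (hq : act τ q = mu • q) (hs1 : act sw p = q) (hs2 : act sw q = p)
    {U : Submodule F4 TT} (hU : U ≤ Submodule.span F4 {p, q}) (hst : Stable H U) (h0 : U ≠ ⊥) :
    Irr H U := by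
  refine ⟨hst, h0, fun U' hU' hst' => ?_⟩
  by_cases h : U' = ⊥
  · exact Or.inl h
  · right
    rw [two_dim hlm hp hq hs1 hs2 hU hst h0, two_dim hlm hp hq hs1 hs2 (hU'.trans hU) hst' h]

theorem stable_of_top {U : Submodule F4 TT} (h : Stable ⊤ U) (K : Subgroup GL4) : Stable K U :=
  fun g _ u hu => h g trivial u hu

theorem has_τ : Has τ F4.ew 0 0 1 := has_tor _ _ _ _

theorem τx : τ x = F4.ew • x := by rw [has_τ.x]; decide
theorem τy : τ y = y := by rw [has_τ.y]; decide
theorem swx : sw x = y := by rw [has_sw.x]; decide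
theorem swy : sw y = x := by rw [has_sw.y]; decide

theorem τe : act τ e = F4.ew • e := by
  rw [act_e has_τ]
  congr 1

theorem swe : act sw e = e := by
  rw [act_e has_sw]
  have : (0 * 0 + 1 * 1 : F4) = 1 := by decide
  rw [this, one_smul]

theorem star5 : ∀ k, 1 ≤ k → k ≤ 4 → ∀ U ≤ LP F4 V4 k, Irr ⊤ U → Irr H U := by
  intro k hk1 hk4 U hU hirr
  have hst : Stable H U := stable_of_top hirr.1 H
  interval_cases k
  · refine irr_two (lam := F4.ew) (mu := 1) (by decide) ?_ ?_ ?_ ?_ (hU.trans LP_one) hst hirr.2.1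
    · rw [act_ι, τx, map_smul]
    · rw [act_ι, τy, one_smul]
    · rw [act_ι, swx]
    · rw [act_ι, swy]
  · -- one-dimensional
    refine ⟨hst, hirr.2.1, fun U' hU' _ => ?_⟩
    by_cases h : U' = ⊥
    · exact Or.inl h
    · right
      refine le_antisymm hU' ?_
      obtain ⟨u, hu, hu0⟩ := Submodule.exists_mem_ne_zero_of_ne_bot h
      obtain ⟨α, hα⟩ := Submodule.mem_span_singleton.mp (LP_two (hU (hU' hu)))
      have hα0 : α ≠ 0 := by
        rintro rfl
        apply hu0
        rw [← hα, zero_smul]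
      rw [← hα] at hu
      have he : e ∈ U' := (U'.smul_mem_iff hα0).mp hu
      refine (hU.trans LP_two).trans ?_
      rw [Submodule.span_le]
      rintro t rfl
      exact he
  · refine irr_two (lam := F4.ev) (mu := F4.ew) (by decide) ?_ ?_ ?_ ?_ (hU.trans LP_three) hst
      hirr.2.1
    · rw [act_br, τe, τx, br_smul, br_smul', smul_smul]; congr 1
    · rw [act_br, τe, τy, br_smul]
    · rw [act_br, swe, swx]
    · rw [act_br, swe, swy]
  · -- `k = 4`
    have hA1 : act τ (br (br e x) x) = (1 : F4) • br (br e x) x := by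
      rw [act_br, act_br, τe, τx]
      simp only [br_smul, br_smul', smul_smul]
      congr 1
    have hA2 : act τ (br (br e y) y) = F4.ew • br (br e y) y := by
      rw [act_br, act_br, τe, τy, br_smul, br_smul]
    have hA3 : act sw (br (br e x) x) = br (br e y) y := by rw [act_br, act_br, swe, swx]
    have hA4 : act sw (br (br e y) y) = br (br e x) x := by rw [act_br, act_br, swe, swy]
    set W4 : Submodule F4 TT := Submodule.span F4 {br (br e x) x, br (br e y) y} with hW4
    have hW4st : Stable ⊤ W4 := by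
      intro g _ u hu
      obtain ⟨a, b, c, d, h⟩ := exists_has g
      obtain ⟨α, β, hαβ⟩ := Submodule.mem_span_pair.mp hu
      have hin : ∀ w : V4, br (br e w) w ∈ W4 := by
        intro w
        rw [br_sq]
        exact add_mem (W4.smul_mem _ (Submodule.subset_span (by simp)))
          (W4.smul_mem _ (Submodule.subset_span (by simp)))
      rw [← hαβ, map_add, map_smul, map_smul, act_br, act_br, act_br, act_br, act_e h]
      simp only [br_smul]
      exact add_mem (W4.smul_mem _ (W4.smul_mem _ (hin _))) (W4.smul_mem _ (W4.smul_mem _ (hin _)))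
    have hcap : U ⊓ W4 = ⊥ ∨ U ⊓ W4 = U := by
      refine hirr.2.2 _ inf_le_left ?_
      intro g hg u hu
      exact ⟨hirr.1 g hg u hu.1, hW4st g hg u hu.2⟩
    rcases hcap with hcap | hcap
    · exfalso
      obtain ⟨u, hu, hu0⟩ := Submodule.exists_mem_ne_zero_of_ne_bot hirr.2.1
      obtain ⟨α, s, hs, hus⟩ := Submodule.mem_span_insert.mp (LP_four (hU hu))
      obtain ⟨β, γ, hβγ⟩ := Submodule.mem_span_pair.mp hs
      have hlo : ∀ t : F4, act (lo t) u - u = (α * (t * t) + β * t) • br (br e y) y := by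
        intro t
        have hx : lo t x = (1, t) := by rw [(has_lo t).x]
        have hy : lo t y = y := by rw [(has_lo t).y]; rfl
        have hee : act (lo t) e = e := by
          rw [act_e (has_lo t)]; simp
        have e1 : act (lo t) (br (br e x) x) = br (br e x) x + (t * t) • br (br e y) y := by
          rw [act_br, act_br, hee, hx, br_sq]; simp
        have e2 : act (lo t) (br (br e y) x) = br (br e y) x + t • br (br e y) y := by
          rw [act_br, act_br, hee, hx, hy, br_vec]; simp
        have e3 : act (lo t) (br (br e y) y) = br (br e y) y := by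
          rw [act_br, act_br, hee, hy]
        rw [hus, ← hβγ, map_add, map_add, map_smul, map_smul, map_smul, e1, e2, e3]
        module
      have hmem : ∀ t : F4, (α * (t * t) + β * t) • br (br e y) y = 0 := by
        intro t
        have h1 : act (lo t) u - u ∈ U := sub_mem (hirr.1 _ trivial _ hu) hu
        rw [hlo t] at h1
        have h2 : (α * (t * t) + β * t) • br (br e y) y ∈ U ⊓ W4 :=
          ⟨h1, W4.smul_mem _ (Submodule.subset_span (by simp))⟩
        rw [hcap] at h2
        exact (Submodule.mem_bot F4).mp h2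
      have he3 : br (br e y) y ≠ 0 := by
        intro h
        apply b4_ne
        unfold b4 tri
        rw [h, br_zero]
      have h1 := (smul_eq_zero.mp (hmem 1)).resolve_right he3
      have h2 := (smul_eq_zero.mp (hmem F4.ew)).resolve_right he3
      have key : ∀ α β : F4, α * (1 * 1) + β * 1 = 0 → α * (F4.ew * F4.ew) + β * F4.ew = 0 →
          α = 0 ∧ β = 0 := by decide
      obtain ⟨hα, hβ⟩ := key α β h1 h2
      subst hα hβ
      have h3 : u ∈ U ⊓ W4 := by
        refine ⟨hu, ?_⟩
        rw [hus, ← hβγ, zero_smul, zero_smul, zero_add, zero_add]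
        exact W4.smul_mem _ (Submodule.subset_span (by simp))
      rw [hcap] at h3
      exact hu0 ((Submodule.mem_bot F4).mp h3)
    · have hUW : U ≤ W4 := by rw [← hcap]; exact inf_le_right
      exact irr_two (lam := 1) (mu := F4.ew) (by decide) hA1 hA2 hA3 hA4 hUW hst hirr.2.1

/-! ### The Steinberg submodule of `L⁵ V` -/

theorem b1_mem : b1 ∈ W := tri_mem_W x
theorem b4_mem : b4 ∈ W := tri_mem_W y

theorem W_form {u : TT} (hu : u ∈ W) : ∃ α β γ δ : F4,
    u = α • b1 + β • sy x y + γ • sy y x + δ • b4 := by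
  unfold W at hu
  induction hu using Submodule.span_induction with
  | mem u h =>
    obtain ⟨w, rfl⟩ := h
    exact ⟨_, _, _, _, tri_cube w⟩
  | zero => exact ⟨0, 0, 0, 0, by simp⟩
  | add u v _ _ hu hv =>
    obtain ⟨a, b, c, d, rfl⟩ := hu
    obtain ⟨a', b', c', d', rfl⟩ := hv
    exact ⟨a + a', b + b', c + c', d + d', by module⟩
  | smul r u _ hu =>
    obtain ⟨a, b, c, d, rfl⟩ := hu
    exact ⟨r * a, r * b, r * c, r * d, by module⟩

theorem sum_mem (t : F4) : t • sy x y + (t * t) • sy y x ∈ W := by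
  have h1 : tri (1, t) (1, t) (1, t) ∈ W := tri_mem_W (1, t)
  rw [tri_cube] at h1
  have h2 : t • sy x y + (t * t) • sy y x = ((1 * 1 * 1 : F4) • b1 + (1 * 1 * t) • sy x y +
      (1 * t * t) • sy y x + (t * t * t) • b4) - b1 - (t * t * t) • b4 := by
    module
  rw [h2]
  exact sub_mem (sub_mem h1 b1_mem) (W.smul_mem _ b4_mem)

theorem c2_mem : sy y x ∈ W := by
  have h1 := sum_mem 1
  have h2 := sum_mem F4.ew
  have h3 : sy y x = F4.ew • ((1 : F4) • sy x y + (1 * 1 : F4) • sy y x) -
      (F4.ew • sy x y + (F4.ew * F4.ew) • sy y x) := by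
    have h4 : F4.ew • ((1 : F4) • sy x y + (1 * 1 : F4) • sy y x) -
      (F4.ew • sy x y + (F4.ew * F4.ew) • sy y x) = (F4.ew - F4.ew * F4.ew) • sy y x := by module
    rw [h4]
    have h5 : F4.ew - F4.ew * F4.ew = 1 := by decide
    rw [h5, one_smul]
  rw [h3]
  exact sub_mem (W.smul_mem _ h1) h2

theorem c1_mem : sy x y ∈ W := by
  have h1 := sum_mem 1
  have h3 : sy x y = ((1 : F4) • sy x y + (1 * 1 : F4) • sy y x) - sy y x := by module
  rw [h3]
  exact sub_mem h1 c2_mem

theorem lo_sy1 (t : F4) : act (lo t) (sy x y) = sy x y + (t * t) • b4 := by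
  have hx : lo t x = (1, t) := by rw [(has_lo t).x]
  have hy : lo t y = (0, 1) := by rw [(has_lo t).y]
  unfold sy
  rw [map_add, map_add, act_tri (has_lo t), act_tri (has_lo t), act_tri (has_lo t), hx, hy,
    tri_vec (0, 1), tri_vec (1, t) (0, 1), tri_vec (1, t) (1, t)]
  unfold b4
  simp only [mul_zero, zero_mul, zero_smul, zero_add, add_zero, mul_one, one_mul, one_smul]
  have h1 := ttt (t • tri x y y)
  have h2 := ttt (t • tri y x y)
  have h3 := ttt (t • tri y y x)
  have h4 := ttt ((t * t) • tri y y y)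
  generalize tri x x y = s1 at *
  generalize tri x y x = s2 at *
  generalize tri y x x = s3 at *
  generalize hs4 : t • tri x y y = s4 at *
  generalize hs5 : t • tri y x y = s5 at *
  generalize hs6 : t • tri y y x = s6 at *
  generalize hs7 : (t * t) • tri y y y = s7 at *
  have e1 : s3 + s5 + s6 + s7 + (s2 + s4 + s6 + s7) + (s1 + s4 + s5 + s7) =
      (s3 + s2 + s1) + s7 + (s4 + s4) + (s5 + s5) + (s6 + s6) + (s7 + s7) := by abel
  rw [e1, h1, h2, h3, h4]
  simp

theorem lo_sy2 (t : F4) : act (lo t) (sy y x) = sy y x + t • b4 := by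
  have hx : lo t x = (1, t) := by rw [(has_lo t).x]
  have hy : lo t y = (0, 1) := by rw [(has_lo t).y]
  unfold sy
  rw [map_add, map_add, act_tri (has_lo t), act_tri (has_lo t), act_tri (has_lo t), hx, hy,
    tri_vec (1, t), tri_vec (0, 1) (1, t), tri_vec (0, 1) (0, 1)]
  unfold b4
  simp only [mul_zero, zero_mul, zero_smul, zero_add, add_zero, mul_one, one_mul, one_smul]
  have h1 := ttt (t • tri y y y)
  generalize hs7 : t • tri y y y = s7 at *
  have e1 : tri x y y + s7 + (tri y x y + s7) + (tri y y x + s7) =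
      (tri x y y + tri y x y + tri y y x) + s7 + (s7 + s7) := by abel
  rw [e1, h1]
  simp

theorem lo_b1 (t : F4) : act (lo t) b1 =
    b1 + t • sy x y + (t * t) • sy y x + (t * t * t) • b4 := by
  have hx : lo t x = (1, t) := by rw [(has_lo t).x]
  have h1 : act (lo t) b1 = tri (1, t) (1, t) (1, t) := by
    unfold b1
    rw [act_tri (has_lo t), hx]
    simp
  rw [h1, tri_cube]
  simp

theorem lo_b4 (t : F4) : act (lo t) b4 = b4 := by
  have hy : lo t y = y := by rw [(has_lo t).y]; rfl
  unfold b4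
  rw [act_tri (has_lo t), hy]
  simp

theorem sw_b4 : act sw b4 = b1 := by
  unfold b4 b1
  rw [act_tri has_sw, swy]
  simp

theorem sw_b1 : act sw b1 = b4 := by
  unfold b4 b1
  rw [act_tri has_sw, swx]
  simp

theorem tri_smul (c : F4) (v : V4) : tri (c • v) (c • v) (c • v) = (c * c * c) • tri v v v := by
  unfold tri
  simp only [br_smul', br_smul, smul_smul, mul_assoc]

theorem cubes_in {U : Submodule F4 TT} (hst : Stable ⊤ U) (hb : b4 ∈ U) (w : V4) :
    tri w w w ∈ U := by
  have hb1 : b1 ∈ U := by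
    rw [← sw_b4]; exact hst _ trivial _ hb
  by_cases h : w.1 = 0
  · have : w = w.2 • y := by ext <;> simp [h, y]
    rw [this, tri_smul]
    exact U.smul_mem _ hb
  · have h1 : w = w.1 • ((1, w.1⁻¹ * w.2) : V4) := by
      ext
      · simp
      · simp [h]
    rw [h1, tri_smul]
    refine U.smul_mem _ ?_
    have h2 : tri (1, w.1⁻¹ * w.2) (1, w.1⁻¹ * w.2) (1, w.1⁻¹ * w.2) =
        act (lo (w.1⁻¹ * w.2)) b1 := by
      rw [lo_b1, tri_cube]
      simp
    rw [h2]
    exact hst _ trivial _ hb1

theorem aux_t : ∀ β γ : F4, (β ≠ 0 ∨ γ ≠ 0) → ∃ t : F4, β * (t * t) + γ * t ≠ 0 := by decide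

theorem irr_W : Irr ⊤ W := by
  refine ⟨W_stable ⊤, ?_, ?_⟩
  · intro h
    have := b4_mem
    rw [h] at this
    exact b4_ne ((Submodule.mem_bot F4).mp this)
  · intro U hU hst
    by_cases h0 : U = ⊥
    · exact Or.inl h0
    right
    obtain ⟨u, hu, hu0⟩ := Submodule.exists_mem_ne_zero_of_ne_bot h0
    obtain ⟨α, β, γ, δ, hform⟩ := W_form (hU hu)
    have hD : ∀ t, act (lo t) u - u ∈ U := fun t => sub_mem (hst _ trivial _ hu) hu
    have hDeq : ∀ t, act (lo t) u - u = (α * t) • sy x y + (α * (t * t)) • sy y x +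
        (α * (t * t * t) + (β * (t * t) + γ * t)) • b4 := by
      intro t
      rw [hform]
      simp only [map_add, map_smul, lo_b1, lo_sy1, lo_sy2, lo_b4]
      module
    have hb4 : b4 ∈ U := by
      by_cases hα : α = 0
      · by_cases hβγ : β ≠ 0 ∨ γ ≠ 0
        · obtain ⟨t, ht⟩ := aux_t β γ hβγ
          have h1 := hD t
          rw [hDeq t, hα] at h1
          simp only [zero_mul, zero_smul, zero_add] at h1
          exact (U.smul_mem_iff ht).mp h1
        · push Not at hβγ
          have h1 : u = δ • b4 := by rw [hform, hα, hβγ.1, hβγ.2]; simp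
          have hδ : δ ≠ 0 := by
            rintro rfl
            apply hu0
            rw [h1, zero_smul]
          rw [h1] at hu
          exact (U.smul_mem_iff hδ).mp hu
      · have h1 := hD 1
        have h2 : act (lo F4.ew) (act (lo 1) u - u) - (act (lo 1) u - u) ∈ U :=
          sub_mem (hst _ trivial _ h1) h1
        have h3 : act (lo F4.ew) (act (lo 1) u - u) - (act (lo 1) u - u) =
            (α * (1 * (F4.ew * F4.ew) + 1 * 1 * F4.ew)) • b4 := by
          rw [hDeq 1]
          simp only [map_add, map_smul, lo_sy1, lo_sy2, lo_b4]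
          module
        rw [h3] at h2
        have h4 : (1 * (F4.ew * F4.ew) + 1 * 1 * F4.ew : F4) = 1 := by decide
        rw [h4, mul_one] at h2
        exact (U.smul_mem_iff hα).mp h2
    refine le_antisymm hU ?_
    unfold W
    rw [Submodule.span_le]
    rintro _ ⟨w, rfl⟩
    exact cubes_in hst hb4 w

/-! ### The submodules for the monomial group -/

theorem H_act {g : GL4} (hg : g ∈ H) : ∃ (r s k : F4), r ≠ 0 ∧ s ≠ 0 ∧ k ≠ 0 ∧
    ((g x = r • x ∧ g y = s • y) ∨ (g x = r • y ∧ g y = s • x)) ∧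
    ∀ u v w, act g (tri u v w) = k • tri (g u) (g v) (g w) := by
  obtain ⟨a, b, c, d, h⟩ := exists_has g
  rcases H_cases hg h with ⟨h1, h2, h3, h4⟩ | ⟨h1, h2, h3, h4⟩
  · subst h1 h2
    refine ⟨a, d, a * d + 0 * 0, h3, h4, h.det, Or.inl ⟨?_, ?_⟩, fun u v w => act_tri h u v w⟩
    · rw [h.x]; ext <;> simp [x]
    · rw [h.y]; ext <;> simp [y]
  · subst h1 h2
    refine ⟨c, b, 0 * 0 + b * c, h4, h3, h.det, Or.inr ⟨?_, ?_⟩, fun u v w => act_tri h u v w⟩
    · rw [h.x]; ext <;> simp [y]
    · rw [h.y]; ext <;> simp [x]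

theorem H_b {g : GL4} (hg : g ∈ H) : ∃ k : F4,
    (act g b1 = k • b1 ∧ act g b4 = k • b4) ∨ (act g b1 = k • b4 ∧ act g b4 = k • b1) := by
  obtain ⟨r, s, k, hr, hs, -, h, hact⟩ := H_act hg
  refine ⟨k, ?_⟩
  unfold b1 b4
  rcases h with ⟨h1, h2⟩ | ⟨h1, h2⟩
  · left
    rw [hact, hact, h1, h2, tri_smul, tri_smul, cube4 r hr, cube4 s hs, one_smul, one_smul]
    exact ⟨rfl, rfl⟩
  · right
    rw [hact, hact, h1, h2, tri_smul, tri_smul, cube4 r hr, cube4 s hs, one_smul, one_smul]
    exact ⟨rfl, rfl⟩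

/-- The span of `b₁, b₄`. -/
noncomputable def D : Submodule F4 TT := Submodule.span F4 {b1, b4}

theorem b1_D : b1 ∈ D := Submodule.subset_span (by simp)
theorem b4_D : b4 ∈ D := Submodule.subset_span (by simp)

theorem D_stable : Stable H D := by
  intro g hg u hu
  obtain ⟨α, β, rfl⟩ := Submodule.mem_span_pair.mp hu
  obtain ⟨k, h | h⟩ := H_b hg
  · rw [map_add, map_smul, map_smul, h.1, h.2]
    exact add_mem (D.smul_mem _ (D.smul_mem _ b1_D)) (D.smul_mem _ (D.smul_mem _ b4_D))
  · rw [map_add, map_smul, map_smul, h.1, h.2]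
    exact add_mem (D.smul_mem _ (D.smul_mem _ b4_D)) (D.smul_mem _ (D.smul_mem _ b1_D))

/-- A functional. -/
noncomputable def fn (w : ℕ → Bool) : TT →ₗ[F4] F4 where
  toFun t := (Φ w t) 0 5
  map_add' s t := by rw [map_add]; rfl
  map_smul' c t := by rw [map_smul]; rfl

theorem not_star : ¬ Irr H W := by
  intro h
  have hDW : D ≤ W := by
    unfold D
    rw [Submodule.span_le]
    rintro t (rfl | rfl)
    · exact b1_mem
    · exact b4_mem
  rcases h.2.2 D hDW D_stable with h1 | h1
  · have := b4_D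
    rw [h1] at this
    exact b4_ne ((Submodule.mem_bot F4).mp this)
  · have h2 := c1_mem
    rw [← h1] at h2
    obtain ⟨α, β, h3⟩ := Submodule.mem_span_pair.mp h2
    have h4 := congrArg (fn w3) h3
    rw [map_add, map_smul, map_smul] at h4
    have e1 : fn w3 b1 = 0 := f3_b1
    have e2 : fn w3 b4 = 0 := f3_b4
    have e3 : fn w3 (sy x y) = 1 := f3_c1
    rw [e1, e2, e3] at h4
    simp at h4

/-- The line of `b₁ + b₄`. -/
noncomputable def E : Submodule F4 TT := Submodule.span F4 {b1 + b4}

theorem E_stable : Stable H E := by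
  intro g hg u hu
  obtain ⟨α, rfl⟩ := Submodule.mem_span_singleton.mp hu
  have hE : b1 + b4 ∈ E := Submodule.mem_span_singleton_self _
  obtain ⟨k, h | h⟩ := H_b hg
  · rw [map_smul, map_add, h.1, h.2, ← smul_add]
    exact E.smul_mem _ (E.smul_mem _ hE)
  · rw [map_smul, map_add, h.1, h.2, ← smul_add, add_comm b4]
    exact E.smul_mem _ (E.smul_mem _ hE)

/-- The span of the two symmetrisations. -/
noncomputable def C : Submodule F4 TT := Submodule.span F4 {sy x y, sy y x}

theorem C_stable : Stable H C := by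
  intro g hg u hu
  obtain ⟨α, β, rfl⟩ := Submodule.mem_span_pair.mp hu
  have hc1 : sy x y ∈ C := Submodule.subset_span (by simp)
  have hc2 : sy y x ∈ C := Submodule.subset_span (by simp)
  obtain ⟨r, s, k, hr, hs, -, h, hact⟩ := H_act hg
  have hsy : ∀ u v, act g (sy u v) = k • sy (g u) (g v) := by
    intro u v
    unfold sy
    rw [map_add, map_add, hact, hact, hact]
    module
  rw [map_add, map_smul, map_smul, hsy, hsy]
  rcases h with ⟨h1, h2⟩ | ⟨h1, h2⟩
  · rw [h1, h2, sy_smul, sy_smul]
    exact add_mem (C.smul_mem _ (C.smul_mem _ (C.smul_mem _ hc1)))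
      (C.smul_mem _ (C.smul_mem _ (C.smul_mem _ hc2)))
  · rw [h1, h2, sy_smul, sy_smul]
    exact add_mem (C.smul_mem _ (C.smul_mem _ (C.smul_mem _ hc2)))
      (C.smul_mem _ (C.smul_mem _ (C.smul_mem _ hc1)))

theorem D_le : D ≤ LP F4 V4 5 := by
  unfold D
  rw [Submodule.span_le]
  rintro t (rfl | rfl)
  · exact tri_mem_LP _ _ _
  · exact tri_mem_LP _ _ _

theorem not_uniserial : ¬ Uniserial H (LP F4 V4 5) := by
  intro h
  have hE : E ≤ LP F4 V4 5 := by
    unfold E
    rw [Submodule.span_le]
    rintro t rfl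
    exact D_le (add_mem b1_D b4_D)
  have hsyLP : ∀ u v, sy u v ∈ LP F4 V4 5 := fun u v =>
    add_mem (add_mem (tri_mem_LP _ _ _) (tri_mem_LP _ _ _)) (tri_mem_LP _ _ _)
  have hC : C ≤ LP F4 V4 5 := by
    unfold C
    rw [Submodule.span_le]
    rintro t (rfl | rfl)
    · exact hsyLP _ _
    · exact hsyLP _ _
  rcases h E C hE hC E_stable C_stable with h1 | h1
  · obtain ⟨α, β, h3⟩ := Submodule.mem_span_pair.mp (h1 (Submodule.mem_span_singleton_self _))
    have h4 := congrArg (fn w1) h3
    rw [map_add, map_smul, map_smul, map_add] at h4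
    have e1 : fn w1 b1 = 1 := f1_b1
    have e2 : fn w1 b4 = 0 := f1_b4
    have e3 : fn w1 (sy x y) = 0 := f1_c1
    have e4 : fn w1 (sy y x) = 0 := f1_c2
    rw [e1, e2, e3, e4] at h4
    simp at h4
  · have h2 : sy x y ∈ E := h1 (Submodule.subset_span (by simp))
    obtain ⟨α, h3⟩ := Submodule.mem_span_singleton.mp h2
    have h4 := congrArg (fn w3) h3
    rw [map_smul, map_add] at h4
    have e1 : fn w3 b1 = 0 := f3_b1
    have e2 : fn w3 b4 = 0 := f3_b4
    have e3 : fn w3 (sy x y) = 1 := f3_c1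
    rw [e1, e2, e3] at h4
    simp at h4

/-! ### Complete reducibility -/

/-- The projection onto the weight space of `b₁, b₄`. -/
noncomputable def π : TT →ₗ[F4] TT where
  toFun t := F4.ew • (act τ (act τ t) + F4.ew • act τ t + F4.ev • t)
  map_add' s t := by simp only [map_add]; module
  map_smul' c t := by simp only [map_smul, RingHom.id_apply]; module

theorem π_apply (t : TT) : π t = F4.ew • (act τ (act τ t) + F4.ew • act τ t + F4.ev • t) := rfl

theorem π_eig {t : TT} {lam : F4} (h : act τ t = lam • t) :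
    π t = (F4.ew * (lam * lam + F4.ew * lam + F4.ev)) • t := by
  rw [π_apply, h, map_smul, h]
  module

theorem π_one {t : TT} (h : act τ t = F4.ew • t) : π t = t := by
  rw [π_eig h]
  have : F4.ew * (F4.ew * F4.ew + F4.ew * F4.ew + F4.ev) = 1 := by decide
  rw [this, one_smul]

theorem π_zero₁ {t : TT} (h : act τ t = (1 : F4) • t) : π t = 0 := by
  rw [π_eig h]
  have : F4.ew * (1 * 1 + F4.ew * 1 + F4.ev) = 0 := by decide
  rw [this, zero_smul]

theorem π_zero₂ {t : TT} (h : act τ t = F4.ev • t) : π t = 0 := by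
  rw [π_eig h]
  have : F4.ew * (F4.ev * F4.ev + F4.ew * F4.ev + F4.ev) = 0 := by decide
  rw [this, zero_smul]

/-- The eigenvalue of `τ` on the basis vectors. -/
theorem τ_tri (u v w : V4) : act τ (tri u v w) = F4.ew • tri (τ u) (τ v) (τ w) := by
  rw [act_tri has_τ]
  congr 1

theorem tri_l (c : F4) (u v w : V4) : tri (c • u) v w = c • tri u v w := by
  unfold tri; simp only [br_smul', br_smul]
theorem tri_m (c : F4) (u v w : V4) : tri u (c • v) w = c • tri u v w := by
  unfold tri; simp only [br_smul', br_smul]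
theorem tri_r (c : F4) (u v w : V4) : tri u v (c • w) = c • tri u v w := by
  unfold tri; simp only [br_smul']

theorem π_b1 : π b1 = b1 := by
  apply π_one
  unfold b1
  rw [τ_tri, τx, tri_l, tri_m, tri_r]
  simp only [smul_smul]
  congr 1

theorem π_b4 : π b4 = b4 := by
  apply π_one
  unfold b4
  rw [τ_tri, τy]

theorem π_LP : LP F4 V4 5 ≤ D.comap π := by
  refine LP_succ (by norm_num) LP_four ?_
  have h0 : (0 : TT) ∈ D := zero_mem _
  rintro s (rfl | rfl | rfl)
  · constructor
    · change π b1 ∈ D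
      rw [π_b1]; exact b1_D
    · change π (tri x x y) ∈ D
      rw [π_zero₁]
      · exact h0
      · rw [τ_tri, τx, τy, tri_l, tri_m, smul_smul, smul_smul]
        congr 1
  · constructor
    · change π (tri y x x) ∈ D
      rw [π_zero₁]
      · exact h0
      · rw [τ_tri, τx, τy, tri_m, tri_r, smul_smul, smul_smul]
        congr 1
    · change π (tri y x y) ∈ D
      rw [π_zero₂]
      · exact h0
      · rw [τ_tri, τx, τy, tri_m, smul_smul]
        congr 1
  · constructor
    · change π (tri y y x) ∈ D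
      rw [π_zero₂]
      · exact h0
      · rw [τ_tri, τx, τy, tri_r, smul_smul]
        congr 1
    · change π b4 ∈ D
      rw [π_b4]; exact b4_D

theorem π_stable {U : Submodule F4 TT} (hst : Stable H U) {u : TT} (hu : u ∈ U) : π u ∈ U := by
  rw [π_apply]
  have h1 := hst _ τ_mem _ hu
  have h2 := hst _ τ_mem _ h1
  exact U.smul_mem _ (add_mem (add_mem h2 (U.smul_mem _ h1)) (U.smul_mem _ hu))

theorem irr_π {U : Submodule F4 TT} (hU : Irr H U) (hle : U ≤ LP F4 V4 5) :
    U ≤ E.comap π := by
  have hcap : U ⊓ D = ⊥ ∨ U ⊓ D = U := by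
    refine hU.2.2 _ inf_le_left ?_
    intro g hg u hu
    exact ⟨hU.1 g hg u hu.1, D_stable g hg u hu.2⟩
  intro u hu
  have h1 : π u ∈ U := π_stable hU.1 hu
  have h2 : π u ∈ D := π_LP (hle hu)
  rcases hcap with hcap | hcap
  · have h3 : π u ∈ U ⊓ D := ⟨h1, h2⟩
    rw [hcap] at h3
    change π u ∈ E
    rw [(Submodule.mem_bot F4).mp h3]
    exact zero_mem _
  · have hUD : U ≤ D := by rw [← hcap]; exact inf_le_right
    obtain ⟨v, hv, hv0⟩ := Submodule.exists_mem_ne_zero_of_ne_bot hU.2.1
    obtain ⟨α, β, h3⟩ := Submodule.mem_span_pair.mp (hUD hv)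
    have hin : b1 + b4 ∈ U := by
      by_cases hαβ : α = β
      · subst hαβ
        have hα : α ≠ 0 := by
          rintro rfl
          apply hv0
          rw [← h3]; simp
        rw [← h3, ← smul_add] at hv
        exact (U.smul_mem_iff hα).mp hv
      · have h4 : act sw v + v ∈ U := add_mem (hU.1 _ sw_mem _ hv) hv
        have h5 : act sw v + v = (α + β) • (b1 + b4) := by
          rw [← h3, map_add, map_smul, map_smul, sw_b1, sw_b4]
          module
        rw [h5] at h4
        have hne : α + β ≠ 0 := by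
          intro h6
          apply hαβ
          have := two4 β
          linear_combination h6 - this
        exact (U.smul_mem_iff hne).mp h4
    have hEU : E ≤ U := by
      unfold E
      rw [Submodule.span_le]
      rintro t rfl
      exact hin
    have hE0 : E ≠ ⊥ := by
      intro h4
      have h5 : b1 + b4 ∈ E := Submodule.mem_span_singleton_self _
      rw [h4] at h5
      have h6 := congrArg (fn w1) ((Submodule.mem_bot F4).mp h5)
      rw [map_add, map_zero] at h6
      have e1 : fn w1 b1 = 1 := f1_b1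
      have e2 : fn w1 b4 = 0 := f1_b4
      rw [e1, e2] at h6
      simp at h6
    rcases hU.2.2 E hEU E_stable with h4 | h4
    · exact absurd h4 hE0
    · rw [← h4] at h1
      exact h1

theorem not_cr : ¬ CompletelyReducible H (LP F4 V4 5) := by
  rintro ⟨ι, U, hirr, -, hsup⟩
  have h1 : LP F4 V4 5 ≤ E.comap π := by
    rw [← hsup]
    refine iSup_le fun i => irr_π (hirr i) ?_
    rw [← hsup]
    exact le_iSup U i
  have h2 : π b1 ∈ E := h1 (D_le b1_D)
  rw [π_b1] at h2
  obtain ⟨α, h3⟩ := Submodule.mem_span_singleton.mp h2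
  have h4 := congrArg (fn w1) h3
  have h5 := congrArg (fn w4) h3
  rw [map_smul, map_add] at h4 h5
  have e1 : fn w1 b1 = 1 := f1_b1
  have e2 : fn w1 b4 = 0 := f1_b4
  rw [e1, e2] at h4
  have hα : α = 1 := by simpa using h4
  subst hα
  rw [one_smul] at h5
  have e3 : fn w4 b4 = 1 := f4_b4
  rw [e3] at h5
  simp at h5

/-- **Main theorem.** -/
theorem result : ∃ (F : Type) (_ : Field F) (_ : Finite F) (V : Type) (_ : AddCommGroup V)
    (_ : Module F V) (_ : FiniteDimensional F V) (H : Subgroup (V ≃ₗ[F] V)) (n : ℕ),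
    IsCoatom H ∧ 1 ≤ n ∧ (∀ m, Star H m ↔ m ≤ n) ∧
      ¬ CompletelyReducible H (LP F V n) ∧ ¬ Uniserial H (LP F V n) := by
  refine ⟨F4, inferInstance, inferInstance, V4, inferInstance, inferInstance, inferInstance, H, 5,
    H_coatom, by norm_num, fun m => ⟨fun h => ?_, fun h k hk1 hk2 U hU hirr => ?_⟩, not_cr,
    not_uniserial⟩
  · by_contra hcon
    push Not at hcon
    exact not_star (h 5 (by norm_num) (by omega) W W_le irr_W)
  · exact star5 k hk1 (by omega) U hU hirr

end Pool.Agent.Results.MP_a1df92_al.MonomialGLTwoFour
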